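import Pool.Agent.K1H35.LK.Defs

/-!
# S_LP : an element of `Γ_{n+1}` inserted anywhere may be moved to the end of the string link
-/

set_option autoImplicit false

noncomputable section

namespace Pool.Agent.K1H21.LK

open Pool.Agent.K1H35.LK

/-! ### permutations -/

theorem pow_lt_of {π : Equiv.Perm ℕ} {N : ℕ} (h : ∀ a, a < N → π a < N) (a : ℕ) (ha : a < N)
    (t : ℕ) : (π ^ t) a < N := by
  induction t with
  | zero => simpa using ha
  | succ t ih => rw [pow_succ', Equiv.Perm.mul_apply]; exact h _ ih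

/-- Every point of a finite invariant set is periodic. -/
theorem exists_period {π : Equiv.Perm ℕ} {N : ℕ} (h : ∀ a, a < N → π a < N) (a : ℕ) (ha : a < N) :
    ∃ r, 1 ≤ r ∧ (π ^ r) a = a := by
  classical
  have hmaps : ∀ t ∈ Finset.range (N + 1), (π ^ t) a ∈ Finset.range N := fun t _ =>
    Finset.mem_range.mpr (pow_lt_of h a ha t)
  obtain ⟨x, hx, y, hy, hxy, he⟩ := Finset.exists_ne_map_eq_of_card_lt_of_maps_to
    (by simp) hmaps
  wlog hlt : x < y generalizing x y with H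
  · exact H y hy x hx hxy.symm he.symm (by omega)
  refine ⟨y - x, by omega, ?_⟩
  have h1 : (π ^ y) a = (π ^ x) ((π ^ (y - x)) a) := by
    rw [← Equiv.Perm.mul_apply, ← pow_add]; congr 2; omega
  have h2 : (π ^ x) ((π ^ (y - x)) a) = (π ^ x) a := by rw [← h1, ← he]
  exact (π ^ x).injective h2

theorem period_mul {π : Equiv.Perm ℕ} {a r : ℕ} (h : (π ^ r) a = a) (j : ℕ) :
    (π ^ (r * j)) a = a := by
  induction j with
  | zero => simp
  | succ j ih => rw [Nat.mul_succ, pow_add, Equiv.Perm.mul_apply, h, ih]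

/-- In a finite invariant set two points of a cycle are joined by a positive power. -/
theorem sameCycle_pow {π : Equiv.Perm ℕ} {N : ℕ} (h : ∀ a, a < N → π a < N) {a b : ℕ} (ha : a < N)
    (hab : π.SameCycle a b) : ∃ t, 1 ≤ t ∧ (π ^ t) a = b := by
  obtain ⟨z, hz⟩ := hab
  obtain ⟨r, hr1, hr⟩ := exists_period h a ha
  -- the power z + r * (|z| + 1) is positive
  have hper : (π ^ (r * (z.natAbs + 1))) a = a := period_mul hr _
  have hpos : 1 ≤ z + (r * (z.natAbs + 1) : ℕ) := by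
    have h0 : 1 * (z.natAbs + 1) ≤ r * (z.natAbs + 1) := Nat.mul_le_mul_right _ hr1
    have h1 : (z.natAbs : ℤ) + 1 ≤ (r * (z.natAbs + 1) : ℕ) := by
      have : z.natAbs + 1 ≤ r * (z.natAbs + 1) := by omega
      exact_mod_cast this
    have h2 : -(z.natAbs : ℤ) ≤ z := by omega
    omega
  obtain ⟨t, ht⟩ := Int.eq_ofNat_of_zero_le (show 0 ≤ z + (r * (z.natAbs + 1) : ℕ) by omega)
  refine ⟨t, by omega, ?_⟩
  have : (π ^ t) a = (π ^ (z + (r * (z.natAbs + 1) : ℕ) : ℤ)) a := by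
    rw [ht, zpow_natCast]
  rw [this, zpow_add, Equiv.Perm.mul_apply, zpow_natCast, hper, hz]

/-! ### small facts about diagrams -/

theorem val_one (m : ℕ) : Val m one := by
  refine ⟨Subgroup.one_mem _, ?_, ?_⟩
  · intro a ha
    refine ⟨a, by simpa [one] using ha, ?_⟩
    exact Equiv.Perm.SameCycle.refl _ _
  · intro i _ j _ h
    simpa [one] using h

theorem val_congr {m k : ℕ} {b b' : Br} (h : Val m ⟨k, b⟩) (hb : b' ∈ BN (m + k))
    (hp : pm b' = pm b) : Val m ⟨k, b'⟩ := by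
  refine ⟨hb, ?_⟩
  have := h.2
  simpa [hp] using this

theorem pm_conj_pure {x g : Br} (h : pm x = 1) : pm (g * x * g⁻¹) = 1 := by
  simp [h]

/-- A conjugate of an element of `Gam K n` is in `Gam N n`. -/
theorem place_mem (hG : S_GAM) {K N n : ℕ} {γ g : Br} (hK : K ≤ N) (hg : g ∈ BN N)
    (hγ : γ ∈ Gam K n) : g * γ * g⁻¹ ∈ Gam N n :=
  hG.1 N n g γ hg (hG.2.1 K N n hK hγ)

theorem place_pure (hG : S_GAM) {K N n : ℕ} {γ g : Br} (hK : K ≤ N) (hg : g ∈ BN N)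
    (hγ : γ ∈ Gam K n) : g * γ * g⁻¹ ∈ PN N :=
  hG.2.2.2.1 N n (place_mem hG hK hg hγ)

theorem pm_PN {N : ℕ} {x : Br} (h : x ∈ PN N) : pm x = 1 := h.1

theorem val_ins (hG : S_GAM) {m k K n : ℕ} {b γ g : Br} (hK : K ≤ m + k) (hg : g ∈ BN (m + k))
    (hγ : γ ∈ Gam K n) (h : Val m ⟨k, b⟩) : Val m ⟨k, b * (g * γ * g⁻¹)⟩ := by
  have hp := place_pure hG hK hg hγ
  refine val_congr h (Subgroup.mul_mem _ h.1 hp.2) ?_
  rw [map_mul, pm_PN hp, mul_one]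

theorem mul_one_left (m : ℕ) (d : RD) : mul m one d = d := by
  cases d with
  | mk k b => simp [mul, one, psiK]

theorem mk_eqn {m n : ℕ} {d e : RD} (h : Mk m d e) : Eqn m n d e := by
  unfold Mk at h
  unfold Eqn
  induction h with
  | rel x y hxy => exact Relation.EqvGen.rel _ _ ⟨hxy.1, hxy.2.1, Or.inl hxy.2.2⟩
  | refl x => exact Relation.EqvGen.refl _
  | symm x y _ ih => exact Relation.EqvGen.symm _ _ ih
  | trans x y z _ _ ih1 ih2 => exact Relation.EqvGen.trans _ _ _ ih1 ih2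

theorem eqn_ins {m n : ℕ} {k : ℕ} {b x : Br} (h : Val m ⟨k, b⟩) (h' : Val m ⟨k, b * x⟩)
    (hx : x ∈ Gam (m + k) n) : Eqn m n ⟨k, b⟩ ⟨k, b * x⟩ :=
  Relation.EqvGen.rel _ _ ⟨h, h', Or.inr ⟨rfl, x, hx, rfl⟩⟩

/-! ### the third hypothesis of `S_TOKEN` -/

theorem tok_pow1 {β Ψ τ : Equiv.Perm ℕ} {m P : ℕ}
    (hΨ1 : ∀ a, Ψ (io m P a) = io m P (β a))
    (hτ : ∀ a, m + P ≤ a → τ a = a) {c t0 : ℕ}
    (hbig : ∀ r, 1 ≤ r → r < t0 → m ≤ (β ^ r) c) :
    ∀ r, r < t0 → ((τ * Ψ) ^ r) (io m P c) = io m P ((β ^ r) c) := by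
  intro r
  induction r with
  | zero => intro _; simp
  | succ r ih =>
    intro hr
    rw [pow_succ', Equiv.Perm.mul_apply, ih (by omega), Equiv.Perm.mul_apply, hΨ1,
      pow_succ', Equiv.Perm.mul_apply]
    have h := hbig (r + 1) (by omega) hr
    rw [pow_succ', Equiv.Perm.mul_apply] at h
    apply hτ
    unfold io
    rw [if_neg (by omega)]
    omega

theorem tok_pow2 {β Ψ τ : Equiv.Perm ℕ} {m P K : ℕ}
    (hΨ1 : ∀ a, Ψ (io m P a) = io m P (β a))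
    (hΨ2 : ∀ a, m ≤ a → a < m + P → Ψ a = a)
    (hτ : ∀ a, m + P ≤ a → τ a = a)
    (hT : ∀ i < m, ∀ t, 1 ≤ t → t ≤ K → m ≤ (τ ^ t) i ∧ (τ ^ t) i < m + P) {c t0 : ℕ}
    (ht0 : 1 ≤ t0) (hsmall : (β ^ t0) c < m)
    (hbig : ∀ r, 1 ≤ r → r < t0 → m ≤ (β ^ r) c) :
    ∀ u, u < K → ((τ * Ψ) ^ (t0 + u)) (io m P c) = (τ ^ (u + 1)) ((β ^ t0) c) := by
  intro u
  induction u with
  | zero =>
    intro _
    obtain ⟨s0, rfl⟩ : ∃ s0, t0 = s0 + 1 := ⟨t0 - 1, by omega⟩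
    rw [add_zero, pow_succ', Equiv.Perm.mul_apply, tok_pow1 hΨ1 hτ hbig s0 (by omega),
      Equiv.Perm.mul_apply, hΨ1, zero_add, pow_one]
    rw [pow_succ', Equiv.Perm.mul_apply] at hsmall ⊢
    unfold io
    rw [if_pos hsmall]
  | succ u ih =>
    intro hu
    rw [← add_assoc, pow_succ', Equiv.Perm.mul_apply, ih (by omega), Equiv.Perm.mul_apply]
    have h := hT _ hsmall (u + 1) (by omega) (by omega)
    rw [hΨ2 _ h.1 h.2, ← Equiv.Perm.mul_apply, ← pow_succ']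

theorem tok3 {β Ψ τ : Equiv.Perm ℕ} {m P K : ℕ}
    (hΨ1 : ∀ a, Ψ (io m P a) = io m P (β a))
    (hΨ2 : ∀ a, m ≤ a → a < m + P → Ψ a = a)
    (hτ : ∀ a, m + P ≤ a → τ a = a)
    (hT : ∀ i < m, ∀ t, 1 ≤ t → t ≤ K → m ≤ (τ ^ t) i ∧ (τ ^ t) i < m + P) {c : ℕ}
    (hc : ∃ t, 1 ≤ t ∧ (β ^ t) c < m) :
    ∃ t, 1 ≤ t ∧ (∀ r, 1 ≤ r → r < t + K → m ≤ ((τ * Ψ) ^ r) (io m P c)) ∧
      (∀ r, t ≤ r → r < t + K → m ≤ ((τ * Ψ) ^ r) (io m P c) ∧
        ((τ * Ψ) ^ r) (io m P c) < m + P) := by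
  classical
  obtain ⟨h1, h2⟩ := Nat.find_spec hc
  set t0 := Nat.find hc with ht0
  have hbig : ∀ r, 1 ≤ r → r < t0 → m ≤ (β ^ r) c := by
    intro r hr1 hr2
    by_contra hcon
    exact Nat.find_min hc (ht0 ▸ hr2) ⟨hr1, by omega⟩
  have hslot : ∀ r, t0 ≤ r → r < t0 + K → m ≤ ((τ * Ψ) ^ r) (io m P c) ∧
      ((τ * Ψ) ^ r) (io m P c) < m + P := by
    intro r hr1 hr2
    obtain ⟨u, rfl⟩ := Nat.exists_eq_add_of_le hr1
    rw [tok_pow2 hΨ1 hΨ2 hτ hT h1 h2 hbig u (by omega)]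
    exact hT _ h2 _ (by omega) (by omega)
  refine ⟨t0, h1, ?_, hslot⟩
  intro r hr1 hr2
  by_cases hlt : r < t0
  · rw [tok_pow1 hΨ1 hτ hbig r hlt]
    have := hbig r hr1 hlt
    unfold io
    rw [if_neg (by omega)]
    omega
  · exact (hslot r (by omega) hr2).1

/-! ### realisation of the moves of the tokens -/

theorem realise (hR : S_REAL) (hS : S_SLIDE) {m k K n : ℕ} {b G0 γ : Br} (hm : 1 ≤ m)
    (hv : Val m ⟨k, b⟩) (hK : K ≤ m + k) (hG0 : G0 ∈ BN (m + k)) (hγ : γ ∈ Gam K n)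
    {p p' : Fin K → ℕ} (hp : ∀ j : Fin K, p j = pm G0 j)
    (hstep : Relation.ReflTransGen (fun q q' : Fin K → ℕ => Function.Injective q ∧
      (∀ j, q j < m + k) ∧ ∃ j, m ≤ pm b (q j) ∧ (∀ j', q j' ≠ pm b (q j)) ∧
        q' = Function.update q j (pm b (q j))) p p') :
    ∃ G ∈ BN (m + k), (∀ j : Fin K, p' j = pm G j) ∧
      Eqn m (n + 1) ⟨k, b * (G0 * γ * G0⁻¹)⟩ ⟨k, b * (G * γ * G⁻¹)⟩ := by
  classical
  induction hstep with
  | refl => exact ⟨G0, hG0, hp, Relation.EqvGen.refl _⟩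
  | @tail q q' _ hqq' ih =>
    obtain ⟨G, hG, hGq, hE⟩ := ih
    obtain ⟨hinj, hlt, j, hmj, hne, rfl⟩ := hqq'
    have hlt2 : pm b (q j) < m + k := hR.2.1 _ _ hv.1 _ (hlt j)
    obtain ⟨t, ht, hpt⟩ := hR.2.2.2.2.2.2.2.1 0 (m + k) (Equiv.swap (q j) (pm b (q j)))
      (by intro a ha; omega)
      (by
        intro a ha
        exact Equiv.swap_apply_of_ne_of_ne (by have := hlt j; omega) (by omega))
    have ht' : t ∈ BN (m + k) := hR.2.2.2.1 0 (m + k) ht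
    have hqj : q j = pm G j := hGq j
    refine ⟨t * G, Subgroup.mul_mem _ ht' hG, ?_, ?_⟩
    · intro j'
      rw [map_mul, Equiv.Perm.mul_apply, ← hGq j', hpt]
      by_cases hj : j' = j
      · subst hj
        rw [Function.update_self, Equiv.swap_apply_left]
      · rw [Function.update_of_ne hj, Equiv.swap_apply_of_ne_of_ne]
        · intro hh; exact hj (hinj hh)
        · exact hne j'
    · refine Relation.EqvGen.trans _ _ _ hE ?_
      have := hS m k K n j b G γ t hm hv hK hG hγ j.2 (by rw [← hqj]; exact hmj)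
        (by
          intro j' hj'
          have := hne ⟨j', hj'⟩
          rw [hGq ⟨j', hj'⟩] at this
          rw [← hqj]
          exact this) ht' (by rw [hpt, hqj])
      exact this

/-! ### the theorem -/

theorem t_LP (hPsi : S_PSI) (hR : S_REAL) (hG : S_GAM) (hP : S_PLACE) (hM : S_MUL) (hS : S_SLIDE)
    (hT : S_TEMP) (hK : S_TOKEN) : S_LP := by
  intro m K hm
  obtain ⟨T, hTv, hTone, hTc⟩ := hT m K hm
  refine ⟨T, hTv, hTone, ?_⟩
  intro k n b g γ hv hKk hg hγ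
  obtain ⟨P, hPdef⟩ : ∃ P, P = m * K := ⟨_, rfl⟩
  rw [← hPdef] at hTv hTone hTc ⊢
  have hKP : K ≤ m + P := by
    rw [hPdef]
    calc K = 1 * K := (one_mul K).symm
      _ ≤ m * K := Nat.mul_le_mul_right _ hm
      _ ≤ m + m * K := Nat.le_add_left _ _
  have hassoc : m + P + k = m + (P + k) := by omega
  -- step 1 : multiply with the template
  have hvins := val_ins hG hKk hg hγ hv
  have hv0 := hM.1 m ⟨P, T⟩ ⟨k, b * (g * γ * g⁻¹)⟩ hTv hvins
  have hv1 := hM.1 m ⟨P, T⟩ ⟨k, b⟩ hTv hv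
  have hstep1 : Mk m (mul m ⟨P, T⟩ ⟨k, b * (g * γ * g⁻¹)⟩) ⟨k, b * (g * γ * g⁻¹)⟩ := by
    have h := hM.2.2.2.1 m ⟨P, T⟩ one ⟨k, b * (g * γ * g⁻¹)⟩ ⟨k, b * (g * γ * g⁻¹)⟩ hTv (val_one m)
      hvins hvins hTone (Relation.EqvGen.refl _)
    rwa [mul_one_left] at h
  -- the place after the multiplication
  obtain ⟨W, hW, hWy⟩ := hPsi.2.2.2.2.2.2.2.1 m P k
  have hconj : g * γ * g⁻¹ ∈ BN (m + k) := (place_pure hG hKk hg hγ).2
  have hbpl : psiK m P (b * (g * γ * g⁻¹)) = psiK m P b * ((W * g) * γ * (W * g)⁻¹) := by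
    rw [map_mul, hWy _ hconj]
    group
  have hW' : W ∈ BN (m + (P + k)) := by rw [← hassoc]; exact hR.2.2.2.1 _ _ hW
  have hmono : BN (m + k) ≤ BN (m + (P + k)) := hR.2.2.2.2.1 _ _ (by omega)
  have hmono2 : BN (m + P) ≤ BN (m + (P + k)) := hR.2.2.2.2.1 _ _ (by omega)
  have hG0 : W * g ∈ BN (m + (P + k)) := Subgroup.mul_mem _ hW' (hmono hg)
  have hbp : mul m ⟨P, T⟩ ⟨k, b⟩ = ⟨P + k, T * psiK m P b⟩ := rfl
  rw [hbp] at hv1
  have hpsib : psiK m P b ∈ BN (m + (P + k)) := by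
    rw [← hassoc]; exact hPsi.2.1 m P k b hv.1
  have hKN : K ≤ m + (P + k) := by omega
  -- the tokens
  have hmaps : ∀ a, a < m + (P + k) → pm (T * psiK m P b) a < m + (P + k) :=
    fun a ha => hR.2.1 _ _ hv1.1 a ha
  have hmaps0 : ∀ a, a < m + k → pm b a < m + k := fun a ha => hR.2.1 _ _ hv.1 a ha
  have htok := hK (pm (T * psiK m P b)) m (m + (P + k)) K (fun a => m ≤ a ∧ a < m + P) hmaps
    (by
      intro a ha
      obtain ⟨i, hi, hia⟩ := hv1.2.1 a ha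
      obtain ⟨t, ht1, ht⟩ := sameCycle_pow hmaps ha hia.symm
      exact ⟨t, ht1, by rw [ht]; exact hi⟩)
    (by
      intro a ha hSl
      obtain ⟨c, hc, rfl⟩ : ∃ c, c < m + k ∧ a = io m P c := by
        by_cases ham : a < m
        · exact ⟨a, by omega, by simp [io, ham]⟩
        · have : m + P ≤ a := by
            by_contra hcon
            exact hSl ⟨by omega, by omega⟩
          refine ⟨a - P, by omega, ?_⟩
          unfold io
          rw [if_neg (by omega)]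
          omega
      have hcyc : ∃ t, 1 ≤ t ∧ ((pm b) ^ t) c < m := by
        obtain ⟨i, hi, hia⟩ := hv.2.1 c hc
        obtain ⟨t, ht1, ht⟩ := sameCycle_pow hmaps0 hc hia.symm
        exact ⟨t, ht1, by rw [ht]; exact hi⟩
      have h3 := tok3 (β := pm b) (Ψ := pm (psiK m P b)) (τ := pm T) (m := m) (P := P) (K := K)
        (fun a => hPsi.2.2.2.2.1 m P b a) (fun a h1 h2 => hPsi.2.2.2.2.2.1 m P b a h1 h2)
        (fun a ha => hR.1 _ _ hTv.1 a ha) (fun i hi => (hTc i hi).2) hcyc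
      rw [← map_mul] at h3
      exact h3)
    (fun j => pm (W * g) j) (by
      intro j j' hjj'
      exact Fin.ext ((pm (W * g)).injective hjj'))
    (by
      intro j
      exact hR.2.1 _ _ hG0 _ (by have := j.2; omega))
  obtain ⟨p', hp'inj, hp'lt, hp'sl, hp'step⟩ := htok
  obtain ⟨G, hGN, hGp, hGE⟩ := realise hR hS (b := T * psiK m P b) (G0 := W * g) (γ := γ) (n := n)
    hm hv1 hKN hG0 hγ (fun _ => rfl) hp'step
  -- the braid at the end
  obtain ⟨g', hg', hg'p⟩ := hR.2.2.2.2.2.2.2.2.1 (m + P) K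
    (fun j => if h : j < K then p' ⟨j, h⟩ else 0) hKP
    (by
      intro j hj
      simp only [hj, dif_pos]
      exact (hp'sl ⟨j, hj⟩).2)
    (by
      intro i j hi hj hij
      simp only [hi, hj, dif_pos] at hij
      exact Fin.mk.inj_iff.mp (hp'inj hij))
  refine ⟨g', hg', ?_⟩
  have hg'' : (psiK m P b)⁻¹ * g' ∈ BN (m + (P + k)) :=
    Subgroup.mul_mem _ (Subgroup.inv_mem _ hpsib) (hmono2 hg')
  have hplace := hP K (m + (P + k)) n γ G ((psiK m P b)⁻¹ * g') hKN hγ hGN hg'' (by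
    intro j hj
    rw [map_mul, map_inv, Equiv.Perm.mul_apply, hg'p j hj, Equiv.Perm.eq_inv_iff_eq]
    simp only [hj, dif_pos]
    have h1 := hGp ⟨j, hj⟩
    simp only at h1
    rw [← h1]
    exact hPsi.2.2.2.2.2.1 m P b _ (hp'sl ⟨j, hj⟩).1 (hp'sl ⟨j, hj⟩).2)
  have hvG : Val m ⟨P + k, T * psiK m P b * (G * γ * G⁻¹)⟩ := val_ins hG hKN hGN hγ hv1
  have hvg : Val m ⟨P + k, T * psiK m P b * (((psiK m P b)⁻¹ * g') * γ * ((psiK m P b)⁻¹ * g')⁻¹)⟩ :=
    val_ins hG hKN hg'' hγ hv1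
  have heq : T * psiK m P b * (((psiK m P b)⁻¹ * g') * γ * ((psiK m P b)⁻¹ * g')⁻¹) =
      T * psiK m P b * (G * γ * G⁻¹) *
        ((G * γ * G⁻¹)⁻¹ * (((psiK m P b)⁻¹ * g') * γ * ((psiK m P b)⁻¹ * g')⁻¹)) := by group
  have hlast : Eqn m (n + 1) ⟨P + k, T * psiK m P b * (G * γ * G⁻¹)⟩
      ⟨P + k, T * psiK m P b * (((psiK m P b)⁻¹ * g') * γ * ((psiK m P b)⁻¹ * g')⁻¹)⟩ := by
    rw [heq]
    rw [heq] at hvg
    exact eqn_ins hvG hvg hplace
  have hfin : mul m ⟨P, T * (g' * γ * g'⁻¹)⟩ ⟨k, b⟩ =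
      ⟨P + k, T * psiK m P b * (((psiK m P b)⁻¹ * g') * γ * ((psiK m P b)⁻¹ * g')⁻¹)⟩ := by
    simp only [mul, RD.mk.injEq, true_and]
    group
  rw [hfin]
  refine Relation.EqvGen.trans _ _ _ ?_ (Relation.EqvGen.trans _ _ _ hGE hlast)
  have h1 := mk_eqn (n := n + 1) hstep1
  have h2 : mul m ⟨P, T⟩ ⟨k, b * (g * γ * g⁻¹)⟩ =
      ⟨P + k, T * psiK m P b * ((W * g) * γ * (W * g)⁻¹)⟩ := by
    simp only [mul]
    rw [hbpl, ← mul_assoc]
  rw [h2] at h1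
  exact Relation.EqvGen.symm _ _ h1

end Pool.Agent.K1H21.LK
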